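import Pool.Agent.R525.FP.Fin
import Pool.Agent.R525.FP.Ker
import Pool.Agent.R525.FP.It
import Pool.Agent.R525.FP.Max
import Pool.Agent.R525.FP.EL
import Pool.Agent.R525.FP.Boot
import Pool.Agent.R525.FP.Reg
import Pool.Agent.R525.FP.SUP
import Pool.Agent.R525.FP.Cac
import Pool.Agent.R525.FP.Iter
import Pool.Agent.R525.FP.Dead
import Pool.Agent.R525.FP.Bump
import Pool.Agent.R525.FP.Locc
import Pool.Agent.R525.FP.Sel
import Pool.Agent.R525.FP.Sel0
import Pool.Agent.R525.FP.Cut
import Pool.Agent.R525.FP.Rad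
import Pool.Agent.R525.FP.Green

/-! # Compactly supported radial solutions of the fourth order p-Laplacian equation

For every dimension `N ≥ 1` the equation `-Δ(|Δf|Δf) + f^2 - f = 0` in `ℝ^N` has a nontrivial
radially symmetric solution of class `C^2` with compact support. The solution is a (rescaled)
maximiser of `∫ f^3` under `∫ |Δf|^3 + ∫ f^2 ≤ 1` among radial functions on a large ball, cut off
outside a dead core found by a Caccioppoli-Stampacchia argument in an annulus of small energy. -/

set_option autoImplicit false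

open MeasureTheory Set
open scoped ContDiff InnerProductSpace Laplacian

namespace Pool.Agent.Results.MP_6aeaf9_an.CompactSupportAllDimensions

open Pool.Agent.R525.FP

theorem result : ∀ N : ℕ, 1 ≤ N → ∃ F : EuclideanSpace ℝ (Fin N) → ℝ,
    ContDiff ℝ 2 F ∧ HasCompactSupport F ∧ F ≠ 0 ∧
    (∀ x y, ‖x‖ = ‖y‖ → F x = F y) ∧
    ContDiff ℝ 2 (fun x => |(Δ F) x| * (Δ F) x) ∧
    (∀ x, - (Δ (fun y => |(Δ F) y| * (Δ F) y)) x + (F x ^ 2 - F x) = 0) ∧
    ∀ φ : EuclideanSpace ℝ (Fin N) → ℝ, ContDiff ℝ ∞ φ → HasCompactSupport φ →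
      - (∫ x, |(Δ F) x| * (Δ F) x * (Δ φ) x) + ∫ x, (F x ^ 2 - F x) * φ x = 0 := by
  have hB : BootP := bootP kerP itP
  have hM : MaxP := maxP kerP itP
  have hE : ELP := elP kerP
  have hR : RegP := regP kerP itP hB
  have hD : DeadP := deadP supP cacP iterP
  have hU : BumpP := bumpP itP
  exact main (selP itP hM hE hR supP hD hU locP) (sel0P itP hM hE hR hD hU locP) cutP radP greenP

end Pool.Agent.Results.MP_6aeaf9_an.CompactSupportAllDimensions
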